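import Pool.Agent.H369.TH.Stm
import Pool.Graph.R_seed8.TH98.CF.Final
import Pool.Graph.R_seed8.TH716.CF.Flat

/-!
# Emptiness of the last linear systems (combinatorial part)
-/

set_option autoImplicit false

namespace Pool.Agent.H369.CB

open Pool.Agent.TH603.EL Pool.Agent.TH716.CF Pool.Agent.H369.TH

/-- the region of the exponents `(a, k)` of the last system; `N = J + γ` -/
def Reg (L τ : ℝ) (N J : ℕ) (a : ℤ) (k : ℕ) : Prop :=
  k ≤ J ∧ 2 * k ≤ N ∧ L + k * τ + ((k + J - jm N J k : ℕ) : ℝ) ≤ (a : ℝ) ∧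
    (a : ℝ) ≤ L + k * τ + ((k + J - jm N J k : ℕ) : ℝ) + ((N : ℝ) - 2 * k + jm N J k)

/-- the emptiness for the points `(ξ i, y i)`, uniformly in all the parameters -/
def Emp (K : Type) [Field K] (g : ℕ) (ξ : Fin (g - 1) → Kˣ) (y : Fin (g - 1) → K) : Prop :=
  ∀ (J γ : ℕ) (L : ℝ) (_ : 0 < γ) (_ : ((J + γ : ℕ) : ℝ) ≤ √g * γ)
    (_ : ((J + γ : ℕ) : ℝ) = √g * γ → ∀ z : ℤ, (z : ℝ) ≠ L) (f : (ℤ × ℕ) →₀ K)
    (_ : ∀ (a : ℤ) (k : ℕ), f (a, k) ≠ 0 → Reg L (Int.fract (2 * √g)) (J + γ) J a k)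
    (_ : ∀ (i : Fin (g - 1)) (a' b' : ℕ), a' + b' < γ → ex2 (ξ i) (y i) a' b' f = 0), f = 0

/-- the Laurent polynomial -/
noncomputable def toLau {K : Type} [Field K] (f : (ℤ × ℕ) →₀ K) : Lau K :=
  f.sum fun m c => AddMonoidAlgebra.single (m.1, (m.2 : ℤ)) c

/-- **CB1** (multiplicity at a point of the torus).  `J φ 1` is the set of the `f` with
`constantCoeff (φ f) = 0`, i.e. the ideal of the point `(ξ, y)`.  With `u = x/ξ - 1`, `v = Y - y` in `J φ 1`: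
`Y^k = ∑ (k choose b) y^(k-b) v^b` and `x^m ≡ ξ^m ∑_{a<γ} (m choose a) u^a` modulo `u^γ` (`m : ℤ`; by
induction on `γ` or for `m ≥ 0` by the binomial theorem and for `m < 0` by descending induction on `m`:
multiply by `1 + u`, a unit of `Lau K`), so
`toLau f ≡ ∑_{a+b<γ} ex2 ξ y a b f * u^a v^b` modulo `(J φ 1)^γ`. -/
def S_pow : Prop := ∀ (K : Type) [Field K] (φ : Lau K →+* PowerSeries K) (_ : IsGerm φ) (ξ : Kˣ) (y : K)
  (_ : PowerSeries.constantCoeff (φ (AddMonoidAlgebra.single (1, 0) 1)) = (ξ : K))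
  (_ : PowerSeries.constantCoeff (φ (AddMonoidAlgebra.single (0, 1) 1)) = y) (f : (ℤ × ℕ) →₀ K) (γ : ℕ)
  (_ : ∀ a b : ℕ, a + b < γ → ex2 ξ y a b f = 0), toLau f ∈ J φ 1 ^ γ

/-- **CB2** (emptiness from short rows, flattening and a shear, with points independent of the
exponents).  `K = HK ℚ = HahnSeries ℝ ℚ`; `φ i = ((hat (gm (i+1))).comp (Fl ℚ)).comp (mapDomainRingHom (sh κ))`,
so `x ↦ i + 1 + u`, `Y ↦ (i + 1 + u)^κ (1 + t)`; `ξ i = i + 1`, `y i = (i+1)^κ (1 + t)`.  For the germs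
`gm (i+1)` over `ℚ` and the exponents `S'` use `final_rows` as in `EmpG_rows` (with `r = 1`, `w = γ`), then
the proof of `EmpG.flat0` and the proof of `EmpG.shear` (copy them: the germs do not depend on the
sets of exponents).  Cardinality: a subset of `ℝ` with well-founded order is countable
(`Set.countable_setOf_isolated_right_within`: all the points but the last one are isolated on the right), so
`#K ≤ 𝔠`. -/
def S_unif : Prop := ∀ (m κ : ℕ) (_ : 0 < κ), ∃ (K : Type) (_ : Field K) (_ : CharZero K)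
  (ξ : Fin m → Kˣ) (y : Fin m → K) (φ : Fin m → (Lau K →+* PowerSeries K)),
  Cardinal.mk K ≤ Cardinal.continuum ∧ Function.Injective ξ ∧ Function.Injective y ∧
  (∀ i, IsGerm (φ i)) ∧
  (∀ i, PowerSeries.constantCoeff (φ i (AddMonoidAlgebra.single (1, 0) 1)) = (ξ i : K)) ∧
  (∀ i, PowerSeries.constantCoeff (φ i (AddMonoidAlgebra.single (0, 1) 1)) = y i) ∧
  ∀ (S S1 S' : Set (ℤ × ℤ)) (γ : ℕ) (_ : ∀ m ∈ S', 0 ≤ m.2)
    (_ : ∀ (k : ℕ), ∀ z ∈ S', ∀ z' ∈ S', (k : ℤ) ≤ z.2 → (k : ℤ) ≤ z'.2 →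
      z'.1 - z.1 < ((m * (γ - k) : ℕ) : ℤ))
    (_ : ∀ a b T k : ℤ, (a, b) ∈ S1 → (a, b + T) ∈ S1 → 0 ≤ k → k ≤ T → (a, k) ∈ S')
    (_ : ∀ z ∈ S, (z.1 + κ * z.2, z.2) ∈ S1) (f : Lau K) (_ : ∀ z, f.coeff z ≠ 0 → z ∈ S)
    (_ : ∀ i, f ∈ J (φ i) 1 ^ γ), f = 0

/-- **CB3**.  `t = √g`, `t ≥ 2`, `κ = ⌊2 t⌋ - 3 ≥ 1`, `τ = 2 t - ⌊2 t⌋`, `N = J + γ`, `m = g - 1 = t² - 1`.
As `jm = min (J - k) (N - 2 k)`, `k + J - jm = 2 k + max 0 (k - γ)` and the upper bound in `Reg` is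
`L + k τ + J + N - k`.  After the shear `a' = a + κ k`, `M = a' - L`: `λ k ≤ M`, `(λ + 1) k - γ ≤ M`
(`λ = 2 t - 1`), `M ≤ 2 N - γ + (λ - 3) k`: this is `S1`.  `S' = {λ l ≤ M ≤ t N - γ - t (t - 2) l, l ≥ 0}`.  If
`(M, b)`, `(M, b + T)` are in `S1`, `0 ≤ l ≤ T`, then `2 t (b + l) ≤ M + γ ≤ 2 N + (2 t - 4) b`, so
`M + γ ≤ t N - t (t - 2) l` (multiply the first inequality by `(2 t - 4)/(2 t)`).  Rows `≥ j` of `S'`: two
elements differ by at most `t N - γ - (t² - 1) j < m (γ - j)` if `N < t γ`; if `N = t γ` then `t` is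
rational, hence an integer (`g` is a perfect square), and as `L` is not an integer the inequalities
for `M` with `S'` are strict (`M = a' - L` is not an integer, but `λ l` and `t N - γ - t (t - 2) l` are).  Put all the
strictness in the definition of `S'`. -/
def S_CB : Prop := ∀ (g : ℕ) (_ : 4 ≤ g), ∃ (K : Type) (_ : Field K) (_ : CharZero K)
  (ξ : Fin (g - 1) → Kˣ) (y : Fin (g - 1) → K), Cardinal.mk K ≤ Cardinal.continuum ∧
  Function.Injective ξ ∧ Function.Injective y ∧ Emp K g ξ y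

end Pool.Agent.H369.CB
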